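import Pool.Agent.Q247.SY.Stm

set_option autoImplicit false

/-! Project SY (helper247), job APX: approximation of real relations by multiples of syzygies. -/

namespace Pool.Agent.Q238.SY

open NumberField NumberField.mixedEmbedding

noncomputable section

variable {K : Type} [Field K] [NumberField K]

theorem np_sub_le (w : InfinitePlace K) (u v : mixedSpace K) :
    |normAtPlace w u - normAtPlace w v| ≤ normAtPlace w (u - v) := by
  have h1 : normAtPlace w u ≤ normAtPlace w (u - v) + normAtPlace w v := by
    have := normAtPlace_add_le w (u - v) v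
    rwa [sub_add_cancel] at this
  have h2 : normAtPlace w v ≤ normAtPlace w (u - v) + normAtPlace w u := by
    have := normAtPlace_add_le w (-(u - v)) u
    rw [normAtPlace_neg, neg_sub, sub_add_cancel] at this
    exact this
  rw [abs_le]
  constructor <;> linarith

theorem np_sum_le {ι : Type*} (w : InfinitePlace K) (s : Finset ι) (f : ι → mixedSpace K) :
    normAtPlace w (∑ i ∈ s, f i) ≤ ∑ i ∈ s, normAtPlace w (f i) := by
  classical
  induction s using Finset.induction_on with
  | empty => simp
  | insert a s ha ih =>
    rw [Finset.sum_insert ha, Finset.sum_insert ha]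
    exact (normAtPlace_add_le w _ _).trans (by linarith)

theorem t_APX : Q247.SY.S_APX := by
  intro rnd K _ _ n a z ⟨r, hr⟩ hz ε hε
  classical
  obtain ⟨C, hC, rnd⟩ := rnd K
  have hrK : (a r : K) ≠ 0 := by
    intro h
    exact hr (RingOfIntegers.ext h)
  set A : ℝ := 1 + ∑ w : InfinitePlace K, ∑ j, w (a j : K) with hA
  have hA0 : 0 < A := by
    have : 0 ≤ ∑ w : InfinitePlace K, ∑ j, w (a j : K) :=
      Finset.sum_nonneg fun w _ => Finset.sum_nonneg fun j _ => apply_nonneg _ _
    linarith
  have hAw : ∀ w : InfinitePlace K, ∑ j, w (a j : K) ≤ A := by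
    intro w
    have : ∑ j, w (a j : K) ≤ ∑ w : InfinitePlace K, ∑ j, w (a j : K) :=
      Finset.single_le_sum (f := fun w : InfinitePlace K => ∑ j, w (a j : K))
        (fun w _ => Finset.sum_nonneg fun j _ => apply_nonneg _ _) (Finset.mem_univ w)
    linarith
  obtain ⟨q, hq⟩ := exists_nat_gt (C * A / ε)
  have hq0 : (0 : ℝ) < q := lt_of_le_of_lt (by positivity) hq
  have hqn : 0 < q := by exact_mod_cast hq0
  set α : mixedSpace K := mixedEmbedding K ((a r : K)⁻¹) with hα
  have hαr : mixedEmbedding K (a r : K) * α = 1 := by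
    rw [hα, ← map_mul, mul_inv_cancel₀ hrK, map_one]
  have hch : ∀ j, ∃ y : 𝓞 K, ∀ w : InfinitePlace K,
      normAtPlace w (mixedEmbedding K (y : K) - (q : ℝ) • (z j * α)) ≤ C := fun j => rnd _
  choose y hy using hch
  set x : Fin n → 𝓞 K := fun i => a r * y i - (if i = r then ∑ j, a j * y j else 0) with hx
  have hsyz : Q247.SY.IsSyz a x := by
    refine ⟨fun j k => if k = r then y j else 0, ?_⟩
    intro i
    have e1 : ∀ j, ∑ k, (if k = r then y j else 0) * Q247.SY.hv a j k i =
        y j * Q247.SY.hv a j r i := by
      intro j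
      rw [Finset.sum_eq_single r]
      · rw [if_pos rfl]
      · intro k _ hk
        rw [if_neg hk, zero_mul]
      · intro h
        exact absurd (Finset.mem_univ r) h
    rw [Finset.sum_congr rfl (fun j _ => e1 j)]
    simp only [Q247.SY.hv, hx, mul_sub, Finset.sum_sub_distrib, mul_ite, mul_zero]
    congr 1
    · rw [Finset.sum_ite_eq, if_pos (Finset.mem_univ i)]
      ring
    · split_ifs with h
      · apply Finset.sum_congr rfl
        intro j _
        ring
      · simp
  refine ⟨q, hqn, x, hsyz, ?_⟩
  -- the errors
  set d : Fin n → mixedSpace K := fun i => mixedEmbedding K (x i : K) - (q : ℝ) • z i with hd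
  have hxne : ∀ i, i ≠ r → d i = mixedEmbedding K (a r : K) *
      (mixedEmbedding K (y i : K) - (q : ℝ) • (z i * α)) := by
    intro i hi
    simp only [hd, hx, if_neg hi, sub_zero]
    rw [mul_sub, mul_smul_comm, show mixedEmbedding K (a r : K) * (z i * α) =
      z i * (mixedEmbedding K (a r : K) * α) by ring, hαr, mul_one, ← map_mul]
    simp
  have hbne : ∀ (w : InfinitePlace K) (i : Fin n), i ≠ r →
      normAtPlace w (d i) ≤ w (a r : K) * C := by
    intro w i hi
    rw [hxne i hi, map_mul, normAtPlace_apply]
    exact mul_le_mul_of_nonneg_left (hy i w) (apply_nonneg _ _)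
  have hsum : ∑ i, mixedEmbedding K (a i : K) * d i = 0 := by
    have e1 : ∑ i, (a i) * x i = 0 := by
      simp only [hx, mul_sub, Finset.sum_sub_distrib, mul_ite, mul_zero]
      rw [Finset.sum_ite_eq', if_pos (Finset.mem_univ r), Finset.mul_sum, sub_eq_zero]
      apply Finset.sum_congr rfl
      intro j _
      ring
    have e2 : ∑ i, mixedEmbedding K (a i : K) * mixedEmbedding K (x i : K) = 0 := by
      have := congrArg (fun t : 𝓞 K => mixedEmbedding K (t : K)) e1
      simpa using this
    simp only [hd, mul_sub, Finset.sum_sub_distrib, e2, mul_smul_comm]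
    rw [← Finset.smul_sum, hz, smul_zero, sub_zero]
  have hbr : ∀ w : InfinitePlace K, normAtPlace w (d r) ≤ C * A := by
    intro w
    have e3 : d r = - ∑ j ∈ Finset.univ.erase r,
        mixedEmbedding K (a j : K) * (mixedEmbedding K (y j : K) - (q : ℝ) • (z j * α)) := by
      rw [← Finset.add_sum_erase _ _ (Finset.mem_univ r)] at hsum
      have e4 : ∑ j ∈ Finset.univ.erase r, mixedEmbedding K (a j : K) * d j =
          mixedEmbedding K (a r : K) * ∑ j ∈ Finset.univ.erase r,
            mixedEmbedding K (a j : K) * (mixedEmbedding K (y j : K) - (q : ℝ) • (z j * α)) := by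
        rw [Finset.mul_sum]
        apply Finset.sum_congr rfl
        intro j hj
        rw [hxne j (Finset.ne_of_mem_erase hj)]
        ring
      rw [e4, ← mul_add] at hsum
      have e5 := congrArg (fun t => α * t) hsum
      simp only [mul_zero, ← mul_assoc] at e5
      rw [mul_comm α, hαr, one_mul] at e5
      exact eq_neg_of_add_eq_zero_left e5
    rw [e3, normAtPlace_neg]
    calc _ ≤ ∑ j ∈ Finset.univ.erase r, normAtPlace w (mixedEmbedding K (a j : K) *
          (mixedEmbedding K (y j : K) - (q : ℝ) • (z j * α))) := np_sum_le w _ _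
      _ ≤ ∑ j ∈ Finset.univ.erase r, w (a j : K) * C := by
          apply Finset.sum_le_sum
          intro j _
          rw [map_mul, normAtPlace_apply]
          exact mul_le_mul_of_nonneg_left (hy j w) (apply_nonneg _ _)
      _ ≤ ∑ j, w (a j : K) * C := by
          apply Finset.sum_le_sum_of_subset_of_nonneg (Finset.erase_subset _ _)
          intro j _ _
          exact mul_nonneg (apply_nonneg _ _) hC.le
      _ = (∑ j, w (a j : K)) * C := by rw [Finset.sum_mul]
      _ ≤ A * C := mul_le_mul_of_nonneg_right (hAw w) hC.le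
      _ = C * A := by ring
  have hb : ∀ (w : InfinitePlace K) (i : Fin n), normAtPlace w (d i) ≤ C * A := by
    intro w i
    by_cases hi : i = r
    · rw [hi]
      exact hbr w
    · refine (hbne w i hi).trans ?_
      have h1 : w (a r : K) ≤ ∑ j, w (a j : K) :=
        Finset.single_le_sum (f := fun j => w (a j : K)) (fun j _ => apply_nonneg _ _)
          (Finset.mem_univ r)
      have h2 := mul_le_mul_of_nonneg_right (h1.trans (hAw w)) hC.le
      linarith
  intro i w
  have h1 := np_sub_le w (mixedEmbedding K (x i : K)) ((q : ℝ) • z i)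
  rw [normAtPlace_apply, normAtPlace_smul, abs_of_pos hq0] at h1
  have h2 := h1.trans (hb w i)
  have e1 : w (x i : K) / q - normAtPlace w (z i) = (w (x i : K) - q * normAtPlace w (z i)) / q := by
    field_simp
  rw [e1, abs_div, abs_of_pos hq0, div_le_iff₀ hq0]
  rw [div_lt_iff₀ hε] at hq
  linarith

end

end Pool.Agent.Q238.SY
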