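import Pool.Agent.Q247.SY.Stm
import Pool.Agent.Helper259.Selmer.Gal

set_option autoImplicit false

/-! Project SY (helper247), job SN: symmetric groups over number fields. -/

namespace Pool.Agent.Q238.SY

open Polynomial NumberField Pool.Agent.Helper259.Selmer

noncomputable section

variable {Ω : Type} [Field Ω] [CharZero Ω] [IsAlgClosed Ω] [Algebra.IsAlgebraic ℚ Ω]

theorem mem_rs {n : ℕ} (hn : 2 ≤ n) {R : Type*} [CommRing R] [IsDomain R] (x : R) :
    x ∈ (F n).rootSet R ↔ x ^ n - x - 1 = 0 := by
  rw [mem_rootSet', F_map]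
  constructor
  · intro h
    have := h.2
    simpa [F] using this
  · intro h
    refine ⟨(monic_aux hn).ne_zero, ?_⟩
    simpa [F] using h

/-- all permutations of the roots of the Selmer polynomial are induced by automorphisms -/
theorem sel_surj {n : ℕ} (hn : n.Prime) :
    Nat.card ((F n).rootSet Ω) = n ∧
    ∀ π : Equiv.Perm ((F n).rootSet Ω), ∃ φ : Ω ≃ₐ[ℚ] Ω, ∀ x : (F n).rootSet Ω, φ x = π x := by
  classical
  have hn2 := hn.two_le
  set f : ℚ[X] := X ^ n - X - 1 with hf
  set L : IntermediateField ℚ Ω := IntermediateField.adjoin ℚ (f.rootSet Ω) with hL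
  have hsplit : IsSplittingField ℚ L f :=
    IntermediateField.adjoin_rootSet_isSplittingField (IsAlgClosed.splits _)
  have hfd : FiniteDimensional ℚ L := hsplit.finiteDimensional L f
  have hNF : NumberField L := { to_charZero := inferInstance, to_finiteDimensional := hfd }
  have hsep : f.Separable := (X_pow_sub_X_sub_one_irreducible_rat hn.ne_one).separable
  have hGal : IsGalois ℚ L := IsGalois.of_separable_splitting_field hsep
  have hbij := bijective (L := L) hn hsplit
  have hsurj := hbij.2
  have hnorm : Normal ℚ Ω := ⟨fun x => IsAlgClosed.splits _⟩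
  have hF : (F n).map (algebraMap ℤ L) = f.map (algebraMap ℚ L) := by
    rw [F_map, hf]; simp
  have hcard := card_rootSet_int hn2 (by rw [hF]; exact hsplit.splits)
  -- the map from the roots in `𝓞 L`
  have hmem : ∀ y : (F n).rootSet (𝓞 L), (((y : 𝓞 L) : L) : Ω) ∈ (F n).rootSet Ω := by
    intro y
    have h1 := (mem_rs hn2 _).1 y.2
    rw [mem_rs hn2]
    have h2 := congrArg (fun z : 𝓞 L => ((z : L) : Ω)) h1
    simpa using h2
  set e0 : (F n).rootSet (𝓞 L) → (F n).rootSet Ω := fun y => ⟨_, hmem y⟩ with he0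
  have hinj : Function.Injective e0 := by
    intro y z h
    have h1 : (((y : 𝓞 L) : L) : Ω) = (((z : 𝓞 L) : L) : Ω) :=
      congrArg (fun u : (F n).rootSet Ω => (u : Ω)) h
    apply Subtype.ext
    apply RingOfIntegers.ext
    exact Subtype.ext h1
  have hsur : Function.Surjective e0 := by
    intro x
    have hx := (mem_rs hn2 _).1 x.2
    have hxL : (x : Ω) ∈ L := by
      apply IntermediateField.subset_adjoin
      rw [mem_rootSet']
      refine ⟨?_, ?_⟩
      · rw [hf]
        simp only [Polynomial.map_sub, Polynomial.map_pow, Polynomial.map_X, Polynomial.map_one]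
        exact (monic_aux hn2).ne_zero
      · rw [hf]
        simpa using hx
    set y : L := ⟨x, hxL⟩ with hy
    have hy1 : y ^ n - y - 1 = 0 := by
      apply Subtype.ext
      simpa [hy] using hx
    have hint : IsIntegral ℤ y := by
      refine ⟨F n, F_monic hn2, ?_⟩
      simp only [F, eval₂_sub, eval₂_X_pow, eval₂_X, eval₂_one]
      exact hy1
    obtain ⟨z, hz⟩ : ∃ z : 𝓞 L, (z : L) = y := ⟨⟨y, hint⟩, rfl⟩
    refine ⟨⟨z, ?_⟩, ?_⟩
    · rw [mem_rs hn2]
      apply RingOfIntegers.ext
      have : (z : L) ^ n - (z : L) - 1 = 0 := by rw [hz]; exact hy1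
      simpa using this
    · apply Subtype.ext
      have : ((z : L) : Ω) = x := by rw [hz]
      exact this
  set e : (F n).rootSet (𝓞 L) ≃ (F n).rootSet Ω := Equiv.ofBijective e0 ⟨hinj, hsur⟩ with he
  refine ⟨?_, ?_⟩
  · rw [← Nat.card_congr e, Nat.card_eq_fintype_card, hcard]
  · intro π
    obtain ⟨g, hg⟩ := hsurj (e.symm.permCongr π)
    refine ⟨AlgEquiv.liftNormal g Ω, ?_⟩
    intro x
    obtain ⟨y, rfl⟩ := e.surjective x
    have h1 : ((e y : (F n).rootSet Ω) : Ω) = algebraMap L Ω ((y : 𝓞 L) : L) := rfl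
    rw [h1, AlgEquiv.liftNormal_commutes]
    have h2 := congrArg (fun σ : Equiv.Perm ((F n).rootSet (𝓞 L)) => e (σ y)) hg
    have h3 : e (e.symm.permCongr π y) = π (e y) := by
      simp [Equiv.permCongr_apply]
    have h4 := congrArg Subtype.val (h2.trans h3)
    rw [← h4]
    rfl

theorem t_SN : Q247.SY.S_SN := by
  intro K _ _ N
  classical
  have halg : Algebra.IsAlgebraic ℚ (AlgebraicClosure K) :=
    Algebra.IsAlgebraic.trans ℚ K (AlgebraicClosure K)
  have hq : Finite (K →ₐ[ℚ] AlgebraicClosure K) := inferInstance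
  obtain ⟨n, hnge, hn⟩ := Nat.exists_infinite_primes
    (N + 5 + Nat.card (K →ₐ[ℚ] AlgebraicClosure K) + 1)
  obtain ⟨hcard, hsur⟩ := sel_surj (Ω := AlgebraicClosure K) hn
  set R := (F n).rootSet (AlgebraicClosure K) with hR
  have hcR : Nat.card R = n := hcard
  -- the two actions
  set ρ := MulAction.toPermHom (AlgebraicClosure K ≃ₐ[ℚ] AlgebraicClosure K) R with hρ
  have hρs : Function.Surjective ρ := by
    intro π
    obtain ⟨φ, hφ⟩ := hsur π
    refine ⟨φ, ?_⟩
    ext x
    exact hφ x
  set E := K →ₐ[ℚ] AlgebraicClosure K with hE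
  let τ : (AlgebraicClosure K ≃ₐ[ℚ] AlgebraicClosure K) →* Equiv.Perm E :=
    { toFun := fun φ => AlgEquiv.arrowCongr AlgEquiv.refl φ
      map_one' := by
        ext ι x
        simp [AlgEquiv.arrowCongr]
      map_mul' := by
        intro φ ψ
        ext ι x
        simp [AlgEquiv.arrowCongr] }
  have hτ : ∀ φ (ι : E) (x : K), τ φ ι x = φ (ι x) := by
    intro φ ι x
    simp only [τ, AlgEquiv.arrowCongr]
    rfl
  have hE0 : Nonempty E := ⟨(Algebra.ofId K (AlgebraicClosure K)).restrictScalars ℚ⟩
  have hidx : τ.ker.index ∣ (Nat.card E).factorial := by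
    rw [Subgroup.index_ker, ← Nat.card_perm]
    exact Subgroup.card_subgroup_dvd_card _
  have hR0 : Nat.card (Equiv.Perm R) = n.factorial := by
    rw [Nat.card_perm, hcR]
  set M := τ.ker.map ρ with hM
  have hMn : M.Normal := Subgroup.Normal.map inferInstance ρ hρs
  have hMd : M.index ∣ (Nat.card E).factorial := (Subgroup.index_map_dvd _ hρs).trans hidx
  have hnt : Nontrivial M := by
    rw [Subgroup.nontrivial_iff_ne_bot]
    intro h0
    rw [h0, Subgroup.index_bot, hR0] at hMd
    have h1 := Nat.le_of_dvd (Nat.factorial_pos _) hMd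
    have h2 : (Nat.card E).factorial < n.factorial :=
      (Nat.factorial_lt Nat.card_pos).2 (by omega)
    omega
  have hA : alternatingGroup R ≤ M := Equiv.Perm.alternatingGroup_le_of_normal (by omega) hnt
  have hcardF : Fintype.card R = n := by rw [← Nat.card_eq_fintype_card, hcR]
  let e : Fin n ≃ R := (Fintype.equivFinOfCardEq hcardF).symm
  refine ⟨n, by omega, fun j => (e j : AlgebraicClosure K), ?_, ?_⟩
  · intro i j h
    exact e.injective (Subtype.ext h)
  · intro σ hσ
    have h1 : e.permCongr σ ∈ alternatingGroup R := by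
      rw [Equiv.Perm.mem_alternatingGroup] at hσ ⊢
      rw [Equiv.Perm.sign_permCongr]
      exact hσ
    obtain ⟨φ, hφ, hφ2⟩ := hA h1
    have hfix : ∀ x : K, φ (algebraMap K (AlgebraicClosure K) x) =
        algebraMap K (AlgebraicClosure K) x := by
      intro x
      have h2 : τ φ = 1 := hφ
      have h3 := hτ φ ((Algebra.ofId K (AlgebraicClosure K)).restrictScalars ℚ) x
      rw [h2] at h3
      exact h3.symm
    refine ⟨AlgEquiv.ofRingEquiv (f := φ.toRingEquiv) hfix, ?_⟩
    intro j
    have h4 := congrArg (fun π : Equiv.Perm R => ((π (e j) : R) : AlgebraicClosure K)) hφ2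
    have h5 : e.permCongr σ (e j) = e (σ j) := by simp [Equiv.permCongr_apply]
    simp only [h5] at h4
    exact h4

end

end Pool.Agent.Q238.SY
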