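import Pool.Agent.Q247.SY.Stm

set_option autoImplicit false

/-! Project SY (helper247), jobs SPAN and INDEP. -/

namespace Pool.Agent.Q238.SY

open NumberField NumberField.mixedEmbedding Module

noncomputable section

theorem t_SPAN : Q247.SY.S_SPAN := by
  intro K _ _ F _ ζ ⟨r, hr⟩ z hz
  classical
  have hrK : (ζ r : K) ≠ 0 := by
    intro h
    exact hr (RingOfIntegers.ext h)
  set α : mixedSpace K := mixedEmbedding K ((ζ r : K)⁻¹) with hα
  have hαr : mixedEmbedding K (ζ r : K) * α = 1 := by
    rw [hα, ← map_mul, mul_inv_cancel₀ hrK, map_one]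
  set b := latticeBasis K with hb
  -- the integral points of the kernel
  set y : F → Free.ChooseBasisIndex ℤ (𝓞 K) → F → 𝓞 K := fun l k i =>
    RingOfIntegers.basis K k * ((if i = l then ζ r else 0) - (if i = r then ζ l else 0)) with hy
  have hy0 : ∀ l k, ∑ i, ζ i * y l k i = 0 := by
    intro l k
    simp only [hy, mul_sub, mul_ite, mul_zero, Finset.sum_sub_distrib]
    rw [Finset.sum_ite_eq', Finset.sum_ite_eq', if_pos (Finset.mem_univ _),
      if_pos (Finset.mem_univ _)]
    ring
  have hbk : ∀ k, b k = mixedEmbedding K ((RingOfIntegers.basis K k : 𝓞 K) : K) := by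
    intro k
    rw [hb, latticeBasis_apply, integralBasis_apply]
  have hzeq : z = ∑ l, ∑ k, (b.repr (z l * α) k) •
      (fun i => mixedEmbedding K (y l k i : K) : F → mixedSpace K) := by
    funext i
    rw [Finset.sum_apply]
    have e1 : ∀ l, (∑ k, (b.repr (z l * α) k) •
        (fun i => mixedEmbedding K (y l k i : K) : F → mixedSpace K)) i =
        (z l * α) * ((if i = l then mixedEmbedding K (ζ r : K) else 0) -
          (if i = r then mixedEmbedding K (ζ l : K) else 0)) := by
      intro l
      rw [Finset.sum_apply]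
      have e2 : ∀ k, ((b.repr (z l * α) k) •
          (fun i => mixedEmbedding K (y l k i : K) : F → mixedSpace K)) i =
          ((b.repr (z l * α) k) • b k) * ((if i = l then mixedEmbedding K (ζ r : K) else 0) -
          (if i = r then mixedEmbedding K (ζ l : K) else 0)) := by
        intro k
        rw [Pi.smul_apply, smul_mul_assoc]
        congr 1
        rw [hbk]
        simp only [hy]
        split_ifs <;> simp
      rw [Finset.sum_congr rfl (fun k _ => e2 k), ← Finset.sum_mul, b.sum_repr]
    rw [Finset.sum_congr rfl (fun l _ => e1 l)]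
    simp only [mul_sub, mul_ite, mul_zero, Finset.sum_sub_distrib]
    rw [Finset.sum_ite_eq, if_pos (Finset.mem_univ _), mul_assoc, mul_comm α, hαr, mul_one]
    split_ifs with h
    · have e3 : ∑ l, z l * α * mixedEmbedding K (ζ l : K) =
          α * ∑ l, mixedEmbedding K (ζ l : K) * z l := by
        rw [Finset.mul_sum]
        apply Finset.sum_congr rfl
        intro l _
        ring
      rw [e3, hz, mul_zero, sub_zero]
    · simp
  rw [hzeq]
  apply Submodule.sum_mem
  intro l _
  apply Submodule.sum_mem
  intro k _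
  apply Submodule.smul_mem
  apply Submodule.subset_span
  exact ⟨y l k, hy0 l k, rfl⟩

/-- integer vectors which are independent over the integers are independent over the reals -/
theorem real_indep {m : ℕ} {J : Type} [Fintype J] (c : Fin m → J → ℤ)
    (hc : ∀ g : Fin m → ℤ, (∀ j, ∑ k, g k * c k j = 0) → ∀ k, g k = 0)
    (g : Fin m → ℝ) (hg : ∀ j, ∑ k, g k * (c k j : ℝ) = 0) : ∀ k, g k = 0 := by
  intro k
  rw [← Module.forall_dual_apply_eq_zero_iff ℚ (g k)]
  intro φ
  have h1 : ∀ j, ∑ k, φ (g k) * (c k j : ℚ) = 0 := by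
    intro j
    have h2 := congrArg φ (hg j)
    rw [map_sum, map_zero] at h2
    rw [← h2]
    apply Finset.sum_congr rfl
    intro k _
    have e1 : g k * (c k j : ℝ) = (c k j : ℚ) • g k := by
      rw [Rat.smul_def]
      push_cast
      ring
    rw [e1, map_smul, smul_eq_mul, mul_comm]
  obtain ⟨D, hD⟩ := IsLocalization.exist_integer_multiples_of_finite (nonZeroDivisors ℤ)
    (fun k => φ (g k))
  have hD0 : ((D : ℤ) : ℚ) ≠ 0 := by
    have := nonZeroDivisors.ne_zero D.2
    exact_mod_cast this
  choose n hn using hD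
  have h3 : ∀ k, (n k : ℚ) = ((D : ℤ) : ℚ) * φ (g k) := by
    intro k
    have := hn k
    simpa using this
  have h4 : ∀ j, ∑ k, n k * c k j = 0 := by
    intro j
    have : ∑ k, (n k : ℚ) * (c k j : ℚ) = 0 := by
      simp_rw [h3, mul_assoc]
      rw [← Finset.mul_sum, h1 j, mul_zero]
    exact_mod_cast this
  have h5 := hc n h4 k
  have h6 := h3 k
  rw [h5] at h6
  have h7 : ((D : ℤ) : ℚ) * φ (g k) = 0 := by rw [← h6]; simp
  exact (mul_eq_zero.1 h7).resolve_left hD0

theorem t_INDEP : Q247.SY.S_INDEP := by
  intro K _ _ F _ N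
  classical
  obtain ⟨m, b⟩ := Submodule.basisOfPid
    (Pi.basis (fun _ : F => RingOfIntegers.basis K)) N
  refine ⟨m, b, ?_⟩
  rw [Fintype.linearIndependent_iff]
  intro g hg
  apply real_indep (J := F × Free.ChooseBasisIndex ℤ (𝓞 K))
    (fun k j => (RingOfIntegers.basis K).repr ((b k : F → 𝓞 K) j.1) j.2)
  · intro n hn
    have hb := b.linearIndependent
    rw [Fintype.linearIndependent_iff] at hb
    apply hb n
    apply Subtype.ext
    funext l
    apply (RingOfIntegers.basis K).repr.injective
    ext i
    have h1 := hn (l, i)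
    simp only [Submodule.coe_sum, Submodule.coe_smul, Finset.sum_apply, Pi.smul_apply, map_sum,
      map_smul, Finsupp.coe_finsetSum, Finsupp.smul_apply, smul_eq_mul, ZeroMemClass.coe_zero,
      Pi.zero_apply, map_zero, Finsupp.coe_zero]
    exact h1
  · intro ⟨l, i⟩
    have h1 := congrArg (fun v : F → mixedSpace K => (latticeBasis K).repr (v l) i) hg
    simp only [Finset.sum_apply, Pi.smul_apply, map_sum, map_smul, Finsupp.coe_finsetSum,
      Finsupp.smul_apply, smul_eq_mul, Pi.zero_apply, map_zero, Finsupp.coe_zero] at h1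
    rw [← h1]
    apply Finset.sum_congr rfl
    intro k _
    rw [latticeBasis_repr_apply]
    have := integralBasis_repr_apply K ((b k : F → 𝓞 K) l) i
    rw [this]
    simp

end

end Pool.Agent.Q238.SY
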